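import Pool.Agent.Helper7K9.CT.Defs
import Pool.Agent.Helper7K9.OL.Main

/-!
# Codimension two: preparations
-/

open CategoryTheory Finset

universe u v

namespace Pool.Agent.Helper7K9.CT

open Pool.Agent.H914 Pool.Agent.H914.VarClass Pool.Agent.H914.VarClass.Obj
  Pool.Agent.H914.WeilCohomology Pool.Agent.Helper7K9.OL Pool.Agent.Helper7K9.KW

section A

variable {k : Type u} [Field k] {𝒱 : VarClass k} {ops : CycleOps 𝒱}
  (W : WeilCohomology.{u, v} ops) {d : ℕ} (D : Strata 𝒱 d) {L : ∀ p (s : D.S p), (D.Y p s).Cycles}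

lemma pair_single_right (p : ℕ) (t : D.S p) (c : W.H (D.Y p t)) (y : Coh W D p) :
    pair W D p y (Pi.single t c) = W.tr (D.Y p t) (y t * c) := by
  rw [pair_def, Finset.sum_eq_single t]
  · rw [Pi.single_eq_same]
  · intro s _ hs
    rw [Pi.single_eq_of_ne hs, mul_zero, map_zero]
  · intro h
    exact absurd (mem_univ t) h

lemma eq_zero_of_pair {p : ℕ} {x : Coh W D p} (h : ∀ y, pair W D p x y = 0) : x = 0 := by
  funext t
  apply W.nondeg
  intro c
  rw [← pair_single_right W D p t c x, h]

lemma pair_sub_left (p : ℕ) (x x' y : Coh W D p) :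
    pair W D p (x - x') y = pair W D p x y - pair W D p x' y := by
  simp [pair_def, sub_mul, sum_sub_distrib]

lemma eq_of_pair {p : ℕ} {x x' : Coh W D p} (h : ∀ y, pair W D p x y = pair W D p x' y) :
    x = x' := by
  rw [← sub_eq_zero]
  apply eq_zero_of_pair W D
  intro y
  rw [pair_sub_left, h, sub_self]

lemma pair_zero_right (p : ℕ) (x : Coh W D p) : pair W D p x 0 = 0 := by
  simp [pair_def]

lemma pair_zero_left (p : ℕ) (x : Coh W D p) : pair W D p 0 x = 0 := by
  simp [pair_def]

lemma pair_neg_left (p : ℕ) (x y : Coh W D p) : pair W D p (-x) y = - pair W D p x y := by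
  simp [pair_def]

lemma pair_neg_right (p : ℕ) (x y : Coh W D p) : pair W D p x (-y) = - pair W D p x y := by
  simp [pair_def]

lemma gys_gys (hS : IsSemistable W D) (p : ℕ) (x : Coh W D (p + 2)) :
    gys W D p (gys W D (p + 1) x) = 0 := by
  apply eq_zero_of_pair W D
  intro y
  rw [adj, adj, hS.res_res', pair_zero_right]

/-- The Gysin maps do not reach the components which do not meet other components. -/
lemma gys_isolated {t : D.S 0} (ht : ∀ s r, D.face 0 r s ≠ t) (x : Coh W D 1) :
    gys W D 0 x t = 0 := by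
  rw [gys_apply, Finset.sum_apply]
  apply sum_eq_zero
  intro s _
  rw [Finset.sum_apply]
  apply sum_eq_zero
  intro r _
  rw [Pi.smul_apply, Pi.single_eq_of_ne (ht s r).symm, smul_zero]

/-- Multiplication by a power of the polarization. -/
noncomputable def lv (L : ∀ p (s : D.S p), (D.Y p s).Cycles) (j p : ℕ) (x : Coh W D p) :
    Coh W D p := fun s => W.cl _ (L p s) ^ j * x s

lemma lv_add (j p : ℕ) (x y : Coh W D p) : lv W D L j p (x + y) = lv W D L j p x + lv W D L j p y := by
  funext s
  simp [lv, mul_add]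

lemma lv_zero (j p : ℕ) : lv W D L j p (0 : Coh W D p) = 0 := by
  funext s
  simp [lv]

lemma lv_res (hL : IsPolarized W D L) (j p : ℕ) (x : Coh W D p) :
    lv W D L j (p + 1) (res W D p x) = res W D p (lv W D L j p x) := by
  funext s
  rw [lv, res_apply, res_apply, mul_sum]
  apply sum_congr rfl
  intro i _
  rw [lv, map_mul, map_pow, hL.map', mul_smul_comm]

lemma pair_lv (j p : ℕ) (x y : Coh W D p) :
    pair W D p (lv W D L j p x) y = degF W D L p j x y := by
  rw [pair_def, degF]
  apply sum_congr rfl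
  intro s _
  rw [lv, mul_assoc]

lemma lv_gys (hL : IsPolarized W D L) (j p : ℕ) (x : Coh W D (p + 1)) :
    lv W D L j p (gys W D p x) = gys W D p (lv W D L j (p + 1) x) := by
  apply eq_of_pair W D
  intro y
  rw [pair_lv, adj, pair_lv, degF_adj W D hL]

lemma lef_apply (j : ℕ) (f : Tot W D) (p : ℕ) : lef W D L j f p = lv W D L j p (f p) := rfl

/-- The terms of the differential. -/
lemma dif_zero {k : ℤ} (hk : (k - 1).natAbs = 0) (f : Tot W D) :
    dif W D k f 0 = gys W D 0 (f 1) := by
  funext s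
  rw [dif, hk, if_pos le_rfl, ← gysF_eq]
  exact zero_add _

lemma dif_succ {k : ℤ} (p : ℕ) (hk : (k - 1).natAbs ≤ p + 1) (f : Tot W D) :
    dif W D k f (p + 1) = res W D p (f p) + gys W D (p + 1) (f (p + 2)) := by
  funext s
  rw [dif, if_pos hk, Pi.add_apply, ← resF_eq, ← gysF_eq]
  rfl

lemma dif_out {k : ℤ} (p : ℕ) (hk : ¬ (k - 1).natAbs ≤ p) (f : Tot W D) :
    dif W D k f p = 0 := by
  funext s
  rw [dif, if_neg hk]
  rfl

end A

end Pool.Agent.Helper7K9.CT
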