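import Pool.Agent.Helper7K9.CT.Bas
import Pool.Agent.Helper7K9.OL.Fr

/-!
# Orthogonal lifting from the local criterion
-/

open CategoryTheory Finset

universe u v

namespace Pool.Agent.Helper7K9.CT

open Pool.Agent.H914 Pool.Agent.H914.VarClass Pool.Agent.H914.VarClass.Obj
  Pool.Agent.H914.WeilCohomology Pool.Agent.Helper7K9.OL Pool.Agent.Helper7K9.KW

section B

variable {k : Type} [Field k] {𝒱 : VarClass k} {ops : CycleOps 𝒱}
  (W : WeilCohomology.{0, 0} ops) {d : ℕ} (D : Strata 𝒱 d)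

theorem piece {j : ℕ} (hj : 1 ≤ j) (hjd : j ≤ d) (M : Model) (v : M.Pl)
    (f : M.Ch → M.B v → ℚ) (G : Transfer M v D) (hG : IsCompatible j f G W) (z : M.Ch)
    (hcrit : ∀ β ∈ Alg W D 0 (d - j), (∀ α ∈ Alg W D 0 (j - 1),
      pair W D 1 (res W D 0 α) (res W D 0 β) = 0) → pair W D 0 (clF W D 0 (G.spec z)) β = 0) :
    ∃ a : M.A v, ∀ b, M.num v (M.ofA v a) b = f z b := by
  obtain ⟨α, hα⟩ := fr W.K (Fam D 0 (d - j)) (Fam D 0 (j - 1)) (Coh W D 0)
    ((clA W D 0).comp (Fam D 0 (d - j)).subtype.toAddMonoidHom)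
    (((psi W D 0).comp (clA W D 0)).comp (Fam D 0 (j - 1)).subtype.toAddMonoidHom)
    (pairL W D 0 (clF W D 0 (G.spec z))) (by
      intro α β
      obtain ⟨r, hr⟩ := pair_rat W D (p := 1) (q := j - 1) (q' := d - j) (by omega)
        (res_mem W D (clF_mem W D α.2)) (res_mem W D (clF_mem W D β.2))
      refine ⟨-r, ?_⟩
      rw [Rat.cast_neg, ← hr]
      rfl) (by
      intro β
      exact pair_rat W D (p := 0) (q := j) (q' := d - j) (by omega)
        (clF_mem W D (hG.spec_cyc z)) (clF_mem W D β.2)) (by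
      intro β hβ
      apply hcrit _ (clF_mem W D β.2)
      intro x hx
      choose α hα hαx using hx
      have h3 := hβ ⟨α, hα⟩
      have h4 : clF W D 0 α = x := funext hαx
      have h5 : - pair W D 1 (res W D 0 (clF W D 0 α)) (res W D 0 (clF W D 0 β.1)) = 0 := h3
      rw [h4] at h5
      exact neg_eq_zero.1 h5)
  refine ⟨G.push α.1, fun b => ?_⟩
  have h3 : - pair W D 1 (res W D 0 (clF W D 0 α.1)) (res W D 0 (clF W D 0 (G.tra b))) =
      pair W D 0 (clF W D 0 (G.spec z)) (clF W D 0 (G.tra b)) := hα ⟨G.tra b, hG.tra_cyc b⟩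
  have h4 := hG.int_push α.1 α.2 b
  rw [resF_eq, resF_eq] at h4
  rw [← hG.int_eq z b, ← h4, Rat.cast_inj] at h3
  exact h3

theorem local_ (M : Model) (v : M.Pl) {n : ℕ} {f : Fin n → M.Ch → M.B v → ℚ}
    (hf : Decomposes M v f) (z : M.Ch) (hz : M.rest z ∈ M.ChX0)
    (h : ∀ r, ∃ a : M.A v, ∀ b, M.num v (M.ofA v a) b = f r z b) :
    ∃ a : M.A v, ∀ b, M.int v (z + M.ofA v a) b = 0 := by
  obtain ⟨m, hm, h1⟩ := hf
  obtain ⟨a₀, ha₀⟩ := h1 z hz
  choose a ha using h
  refine ⟨m⁻¹ • (a₀ - ∑ r, a r), fun b => ?_⟩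
  have h3 : m * M.int v z b + M.int v (M.ofA v a₀) b = ∑ r, M.int v (M.ofA v (a r)) b := by
    have h4 := ha₀ b
    rw [Finset.sum_congr rfl fun r _ => (ha r b).symm] at h4
    exact h4
  have h5 : M.int v (M.ofA v (∑ r, a r)) b = ∑ r, M.int v (M.ofA v (a r)) b := by
    rw [map_sum, map_sum, LinearMap.sum_apply]
  rw [map_smul, map_sub, map_add, map_smul, map_sub, LinearMap.add_apply, LinearMap.smul_apply,
    LinearMap.sub_apply, h5, ← h3, smul_eq_mul]
  have := hm.ne'
  field_simp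
  ring

theorem global (M : Model)
    (hloc : ∀ v z, M.rest z ∈ M.ChX0 → ∃ a : M.A v, ∀ b, M.int v (z + M.ofA v a) b = 0) :
    M.OrthogonalLifting := by
  classical
  intro c hc
  obtain ⟨z, rfl⟩ := M.rest_surj c
  have hfin := M.finite z hc
  choose a ha using fun v => hloc v z hc
  refine ⟨z + ∑ v ∈ hfin.toFinset, M.ofA v (a v), ?_, fun w b => ?_⟩
  · rw [map_add, map_sum, sum_eq_zero fun v _ => M.rest_ofA v (a v), add_zero]
  · have h1 : M.int w (z + ∑ v ∈ hfin.toFinset, M.ofA v (a v)) b = 0 := by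
      rw [map_add, map_sum, LinearMap.add_apply, LinearMap.sum_apply]
      by_cases hw : w ∈ hfin.toFinset
      · rw [Finset.sum_eq_single w]
        · rw [← LinearMap.add_apply, ← map_add, ha]
        · intro v _ hvw
          exact M.int_ne v w (a v) b hvw
        · intro h2
          exact absurd hw h2
      · rw [sum_eq_zero, add_zero]
        · by_contra h2
          exact hw (hfin.mem_toFinset.2 ⟨b, h2⟩)
        · intro v hv
          apply M.int_ne
          rintro rfl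
          exact hw hv
    rw [Model.GS, Model.num, h1, Rat.cast_zero, zero_mul]

end B

end Pool.Agent.Helper7K9.CT
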