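import Pool.Agent.Helper7K9.CT.DefsK
import Pool.Agent.Helper7K9.CT.Gen
import Pool.Agent.Helper7K9.KW.Ext

/-!
# Divisors, zero-cycles and one-cycles
-/

open CategoryTheory Finset

universe u v

namespace Pool.Agent.Helper7K9.CT

open Pool.Agent.H914 Pool.Agent.H914.VarClass Pool.Agent.H914.VarClass.Obj
  Pool.Agent.H914.WeilCohomology Pool.Agent.Helper7K9.OL Pool.Agent.Helper7K9.KW

section A

variable {k : Type} [Field k] {𝒱 : VarClass k} {ops : CycleOps 𝒱}
  {W : WeilCohomology.{0, 0} ops} {d : ℕ} {D : Strata 𝒱 d} {L : ∀ p (s : D.S p), (D.Y p s).Cycles}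

lemma InE1.eq_zeroB {q : ℕ} {k : ℤ} {f : Tot W D} (h : InE1 W D q k f) {p : ℕ}
    (hp : ¬ (p ≤ q ∧ k.natAbs ≤ p ∧ Even ((p : ℤ) + k))) : f p = 0 := by
  funext s
  exact (h p s).2.resolve_right hp

/-- Expansion of constants in a rational basis of the coefficient field. -/
lemma cK_expand (p : ℕ) (a : D.S p → W.K) : ∃ (n : ℕ) (c : Fin n → W.K)
    (v : Fin n → D.S p → ℚ), KW.cK W D p a = ∑ i, c i • cst W D p (v i) := by
  classical
  let B := Module.Basis.ofVectorSpace ℚ W.K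
  let I : Finset _ := univ.biUnion fun s => (B.repr (a s)).support
  have ha : ∀ s, a s = ∑ i ∈ I, ((B.coord i (a s) : ℚ) : W.K) * B i := by
    intro s
    conv_lhs => rw [← B.linearCombination_repr (a s), Finsupp.linearCombination_apply, Finsupp.sum]
    have : (B.repr (a s)).support ⊆ I := fun i hi => mem_biUnion.2 ⟨s, mem_univ s, hi⟩
    rw [← Finset.sum_subset this]
    · apply sum_congr rfl
      intro i _
      rw [Rat.smul_def]
      rfl
    · intro i _ hi
      have h2 : B.coord i (a s) = 0 := by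
        rw [Finsupp.notMem_support_iff] at hi
        exact hi
      rw [h2, Rat.cast_zero, zero_mul]
  have h3 : KW.cK W D p a = ∑ i ∈ I, B i • cst W D p (fun s => B.coord i (a s)) := by
    funext s
    rw [Finset.sum_apply]
    simp only [KW.cK]
    rw [ha s, sum_smul]
    apply sum_congr rfl
    intro i _
    simp only [Pi.smul_apply, cst, AddMonoidHom.coe_mk, ZeroHom.coe_mk]
    rw [smul_smul, mul_comm]
  refine ⟨I.card, fun i => B (I.equivFin.symm i), fun i s => B.coord (I.equivFin.symm i) (a s), ?_⟩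
  rw [h3, ← Finset.sum_coe_sort I]
  exact (Equiv.sum_comp I.equivFin.symm (fun i : I => B (i : _) •
    cst W D p (fun s => B.coord (i : _) (a s)))).symm

/-- Divisors. -/
theorem critOne (hS : IsSemistable W D) (hL : IsPolarized W D L) {x β : Coh W D 0}
    (h : ∀ α ∈ Alg W D 0 0, pair W D 1 (res W D 0 α) (res W D 0 β) = 0)
    {g : Tot W D} (hg : InE1 W D 1 1 g) (hg' : dif W D 1 g = at0 W D x) :
    pair W D 0 x β = 0 := by
  have hx : x = gys W D 0 (g 1) := by
    have h1 := congrFun hg' 0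
    rw [dif_zero W D (by norm_num)] at h1
    exact h1.symm
  have hg3 : g 3 = 0 := InE1.eq_zeroB hg (by norm_num)
  have hr : res W D 1 (g 1) = 0 := by
    have h1 := congrFun hg' 2
    rw [dif_succ W D 1 (by norm_num), hg3, map_zero, add_zero] at h1
    exact h1
  obtain ⟨y, hy, hyg⟩ := surj_key W D hS hL (n := 0) (x := g 1) (fun s => (hg 1 s).1) hr
  obtain ⟨a, rfl⟩ := exists_cK W D hy
  obtain ⟨n, c, v, hv⟩ := cK_expand (D := D) 0 a
  rw [map_sub, sub_eq_zero] at hyg
  rw [hx, hyg, adj, hv, map_sum, pair_sum_left]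
  apply sum_eq_zero
  intro i _
  rw [map_smul, pair_smul_left, h _ (cst_mem W D 0 (v i)), mul_zero]

/-- Classes of codimension zero are rational constants. -/
lemma exists_cst (hL : IsPolarized W D L) {β : Coh W D 0} (hβ : β ∈ Alg W D 0 0) :
    ∃ u : D.S 0 → ℚ, β = cst W D 0 u := by
  have h1 : ∀ s, ∃ u : ℚ, β s = (u : W.K) • 1 := by
    intro s
    obtain ⟨z, hz, hzβ⟩ := hβ s
    have hdim := D.dim_add 0 s
    obtain ⟨r, hr⟩ := rational' W (hL.cyc 0 s) hz (e := (D.Y 0 s).dim) (by omega)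
    obtain ⟨w, hw, hw'⟩ := hL.pos' 0 s
    have h2 : β s ∈ W.gr (D.Y 0 s) 0 := by
      rw [← hzβ]
      have := W.cl_mem hz
      simpa using this
    rw [W.gr_zero, Submodule.mem_span_singleton] at h2
    obtain ⟨c, hc⟩ := h2
    refine ⟨r / w, ?_⟩
    rw [hzβ, ← hc, mul_smul_comm, mul_one, map_smul, hw', smul_eq_mul] at hr
    have hw0 : (w : W.K) ≠ 0 := by exact_mod_cast hw.ne'
    rw [← hc]
    congr 1
    rw [Rat.cast_div, ← hr, mul_div_cancel_right₀ _ hw0]
  choose u hu using h1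
  exact ⟨u, funext hu⟩

/-- Zero-cycles. -/
theorem critTop (hd : 1 ≤ d) (hL : IsPolarized W D L) {x β : Coh W D 0}
    (hβ : β ∈ Alg W D 0 0)
    (h : ∀ α ∈ Alg W D 0 (d - 1), pair W D 1 (res W D 0 α) (res W D 0 β) = 0)
    {g : Tot W D} (hg' : dif W D 1 g = at0 W D x) : pair W D 0 x β = 0 := by
  have hx : x = gys W D 0 (g 1) := by
    have h1 := congrFun hg' 0
    rw [dif_zero W D (by norm_num)] at h1
    exact h1.symm
  obtain ⟨u, rfl⟩ := exists_cst hL hβ
  have hα : lv W D L (d - 1) 0 (cst W D 0 u) ∈ Alg W D 0 (d - 1) := by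
    intro s
    obtain ⟨y, hy, h5⟩ := cst_mem W D 0 u s
    obtain ⟨y', hy', h6⟩ := pow_mul_alg W (hL.cyc 0 s) hy (d - 1)
    rw [add_zero] at hy'
    exact ⟨y', hy', by rw [h6, h5]; rfl⟩
  have h1 := h _ hα
  rw [← lv_res W D hL, pair_lv, res_cst] at h1
  obtain ⟨r, hr, _, hr0⟩ := E_pos W D hL 1 (d - 1) (by omega) (sc D 0 u)
  rw [h1] at hr
  have hr' : r = 0 := by exact_mod_cast hr.symm
  have hsc := hr0 hr'
  rw [hx, adj, res_cst, hsc, map_zero, pair_zero_right]

/-- One-cycles. -/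
theorem critCurve (hd : 3 ≤ d) (hS : IsSemistable W D) (hL : IsPolarized W D L)
    {x β : Coh W D 0} (hβ : β ∈ Alg W D 0 1)
    (h : ∀ α ∈ Alg W D 0 (d - 2), pair W D 1 (res W D 0 α) (res W D 0 β) = 0)
    {g : Tot W D} (hg : InE1 W D (2 * (d - 1) - 1) 1 g) (hg' : dif W D 1 g = at0 W D x) :
    pair W D 0 x β = 0 := by
  have hx : x = gys W D 0 (g 1) := by
    have h1 := congrFun hg' 0
    rw [dif_zero W D (by norm_num)] at h1
    exact h1.symm
  have hg3 : res W D 1 (g 1) + gys W D 2 (g 3) = 0 := by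
    have h1 := congrFun hg' 2
    rw [dif_succ W D 1 (by norm_num)] at h1
    exact h1
  apply radical W D hd hS hL hβ h _ hx hg3
  intro s
  have h1 := (hg 1 s).1
  rwa [show 2 * (d - 1) - 1 - 1 = 2 * (d - 2) by omega] at h1

end A

theorem basic (M : Model) (h : ∀ v, ∃ (n : ℕ) (f : Fin n → M.Ch → M.B v → ℚ),
    Decomposes M v f ∧ ∀ r, IsBasicPiece M v (f r)) : M.OrthogonalLifting := by
  apply global
  intro v z hz
  obtain ⟨n, f, hf, hp⟩ := h v
  apply local_ M v hf z hz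
  intro r
  obtain ⟨k, _, _, 𝒱, ops, W, d, j, D, L, G, hj, hjd, hjj, hS, hL, hG, hW⟩ := hp r
  obtain ⟨g, hg, hg'⟩ := hW z hz
  refine piece W D hj hjd M v (f r) G hG z fun β hβ hα => ?_
  by_cases h1 : j = 1
  · subst h1
    exact critOne hS hL hα hg hg'
  by_cases h2 : j = d
  · subst h2
    rw [Nat.sub_self] at hβ
    exact critTop hj hL hβ hα hg'
  have h3 : j = d - 1 := by omega
  subst h3
  rw [show d - (d - 1) = 1 by omega] at hβ
  rw [show d - 1 - 1 = d - 2 by omega] at hα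
  exact critCurve (by omega) hS hL hβ hα hg hg'

end Pool.Agent.Helper7K9.CT
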