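import Pool.Agent.Helper7K9.CT.KeyK

/-!
# The criterion in codimension two
-/

open CategoryTheory Finset

universe u v

namespace Pool.Agent.Helper7K9.CT

open Pool.Agent.H914 Pool.Agent.H914.VarClass Pool.Agent.H914.VarClass.Obj
  Pool.Agent.H914.WeilCohomology Pool.Agent.Helper7K9.OL Pool.Agent.Helper7K9.KW

section A

variable {k : Type} [Field k] {𝒱 : VarClass k} {ops : CycleOps 𝒱}
  {W : WeilCohomology.{0, 0} ops} {d : ℕ} {D : Strata 𝒱 d} {L : ∀ p (s : D.S p), (D.Y p s).Cycles}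

lemma InE1.gr {q : ℕ} {k : ℤ} {f : Tot W D} (h : InE1 W D q k f) (p s) :
    f p s ∈ W.gr (D.Y p s) (q - p) := (h p s).1

lemma InE1.eq_zero {q : ℕ} {k : ℤ} {f : Tot W D} (h : InE1 W D q k f) {p : ℕ}
    (hp : ¬ (p ≤ q ∧ k.natAbs ≤ p ∧ Even ((p : ℤ) + k))) : f p = 0 := by
  funext s
  exact (h p s).2.resolve_right hp

/-- The family `u` on the double intersections. -/
def at1 (u : Coh W D 1) : Tot W D
  | 0 => 0
  | 1 => u
  | _ + 2 => 0

/-- The family with value `β` on the components and `- g` elsewhere. -/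
def glue (β : Coh W D 0) (g : Tot W D) : Tot W D
  | 0 => β
  | p + 1 => - g (p + 1)

lemma dif_eq_zero {f : Tot W D} (h : dif W D 1 f = 0) (k : ℤ) : dif W D k f = 0 := by
  funext p s
  have h1 := congrFun (congrFun h p) s
  rw [dif, if_pos (by simp)] at h1
  rw [dif, h1]
  simp

lemma mem_even {X : 𝒱.Obj} {x : W.H X} {i j : ℕ} (h : x ∈ W.gr X i) (hij : i = 2 * j) :
    x ∈ W.gr X (2 * j) := hij ▸ h

lemma alg_gr {p q : ℕ} {x : Coh W D p} (hx : x ∈ Alg W D p q) (s) :
    x s ∈ W.gr (D.Y p s) (2 * q) := by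
  obtain ⟨y, hy, h1⟩ := hx s
  rw [← h1]
  exact W.cl_mem hy

/-- The classes of the curves are zero if they are numerically trivial. -/
lemma gys_eq_zero (hd : 3 ≤ d) (hD : HomEqNum W D 2)
    {β : Coh W D 0} (hβ : β ∈ Alg W D 0 (d - 2))
    (h : ∀ α ∈ Alg W D 0 1, pair W D 1 (res W D 0 α) (res W D 0 β) = 0) :
    gys W D 0 (res W D 0 β) = 0 := by
  classical
  set w := gys W D 0 (res W D 0 β) with hw
  have hwA : w ∈ Alg W D 0 (d - 2 + 1) := gys_mem W D (res_mem W D hβ)
  have h0 : ∀ (t : D.S 0) (z : (D.Y 0 t).Cycles), (D.Y 0 t).IsCyc 1 z →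
      W.tr _ (w t * W.cl _ z) = 0 := by
    intro t z hz
    rw [← pair_single_right, hw, adj]
    have hα : (Pi.single t (W.cl _ z) : Coh W D 0) ∈ Alg W D 0 1 := by
      intro s
      by_cases hs : s = t
      · subst hs
        exact ⟨z, hz, by rw [Pi.single_eq_same]⟩
      · exact ⟨0, SmVar.IsCyc.zero _ _, by rw [Pi.single_eq_of_ne hs, map_zero]⟩
    rw [pair_comm_even W D (e := fun _ => d - 2) (alg_gr (res_mem W D hβ)), h _ hα]
  funext t
  by_cases ht : ∀ s r, D.face 0 r s ≠ t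
  · rw [hw]
    exact gys_isolated W D ht _
  push Not at ht
  obtain ⟨s, r, rfl⟩ := ht
  obtain ⟨y, hy, hyw⟩ := hwA (D.face 0 r s)
  rw [show d - 2 + 1 = d + 1 - 2 by omega] at hy
  change w (D.face 0 r s) = 0
  rw [← hyw]
  apply hD s r y hy
  intro z hz
  change W.tr _ (W.cl _ y * W.cl _ z) = 0
  rw [hyw]
  exact h0 _ z hz

theorem crit2 (hd : 3 ≤ d) (hS : IsSemistable W D) (hL : IsPolarized W D L)
    (hH : HardLefschetz W D L) (hD : HomEqNum W D 2)
    {x β : Coh W D 0} (hx2 : x ∈ Alg W D 0 2) (hβ : β ∈ Alg W D 0 (d - 2))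
    (h : ∀ α ∈ Alg W D 0 1, pair W D 1 (res W D 0 α) (res W D 0 β) = 0)
    {g : Tot W D} (hg : InE1 W D 3 1 g) (hg' : dif W D 1 g = at0 W D x) :
    pair W D 0 x β = 0 := by
  set u := res W D 0 β with hu
  have huA : u ∈ Alg W D 1 (d - 2) := res_mem W D hβ
  have hgu : gys W D 0 u = 0 := gys_eq_zero hd hD hβ h
  have hru : res W D 1 u = 0 := hS.res_res' 0 β
  have hβgr : ∀ s, β s ∈ W.gr _ (2 * (d - 2)) := alg_gr hβ
  have hugr : ∀ s, u s ∈ W.gr _ (2 * (d - 2)) := alg_gr huA
  -- surjectivity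
  obtain ⟨hsurj, -⟩ := hH 3 1 (by norm_num) hd
  obtain ⟨-, hinj⟩ := hH 3 (-1) (by norm_num) hd
  obtain ⟨f, g', hf, hf0, hg2, hfg⟩ := hsurj (at1 u) (by
    intro p s
    match p with
    | 0 => exact ⟨Submodule.zero_mem _, Or.inl rfl⟩
    | 1 =>
      refine ⟨?_, Or.inr ⟨by omega, by norm_num, by norm_num⟩⟩
      rw [show 2 * d - 3 - 1 = 2 * (d - 2) by omega]
      exact hugr s
    | p + 2 => exact ⟨Submodule.zero_mem _, Or.inl rfl⟩) (by
    funext p
    match p with
    | 0 =>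
      rw [dif_zero W D (by norm_num)]
      exact hgu
    | 1 =>
      rw [dif_succ W D 0 (by norm_num)]
      change res W D 0 0 + gys W D 1 0 = 0
      rw [map_zero, map_zero, add_zero]
    | 2 =>
      rw [dif_succ W D 1 (by norm_num)]
      change res W D 1 u + gys W D 2 0 = 0
      rw [hru, map_zero, add_zero]
    | p + 3 =>
      rw [dif_succ W D (p + 2) (by norm_num)]
      change res W D (p + 2) 0 + gys W D (p + 3) 0 = 0
      rw [map_zero, map_zero, add_zero])
  have hg2' : InE1 W D (2 * d - 3 - 1) 2 g' := hg2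
  have hfg' : at1 u = lef W D L (d - 3) f + dif W D 2 g' := hfg
  have hcomp : ∀ p, at1 u p = lv W D L (d - 3) p (f p) + dif W D 2 g' p := fun p =>
    congrFun hfg' p
  have hg'0 : g' 0 = 0 := InE1.eq_zero hg2' (by norm_num)
  have hf0' : f 0 = 0 := InE1.eq_zero hf (by norm_num)
  -- injectivity
  obtain ⟨G, hG, hfG⟩ := hinj f (by
    intro p s
    refine ⟨(hf p s).1, (hf p s).2.imp id ?_⟩
    rintro ⟨h1, h2, h3⟩
    refine ⟨h1, h2, ?_⟩
    have : (p : ℤ) + -1 = (p + 1) + 2 * (-1) := by ring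
    rw [this]
    exact h3.add (even_two_mul _)) (dif_eq_zero hf0 _) (by
    refine ⟨glue β g', ?_, ?_⟩
    · intro p s
      match p with
      | 0 =>
        refine ⟨?_, Or.inr ⟨by omega, by norm_num, by norm_num⟩⟩
        rw [show 2 * d - 3 - 1 - 0 = 2 * (d - 2) by omega]
        exact hβgr s
      | p + 1 =>
        refine ⟨Submodule.neg_mem _ (hg2' (p + 1) s).1, (hg2' (p + 1) s).2.imp ?_ ?_⟩
        · intro h1
          change - g' (p + 1) s = 0
          rw [h1, neg_zero]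
        · rintro ⟨h1, h2, h3⟩
          refine ⟨h1, by norm_num, ?_⟩
          have : ((p + 1 : ℕ) : ℤ) + (-1 + 1) = ((p + 1 : ℕ) : ℤ) + 2 + 2 * (-1) := by ring
          rw [this]
          exact h3.add (even_two_mul _)
    · funext p
      rw [lef_apply]
      match p with
      | 0 =>
        rw [dif_out W D 0 (by norm_num), hf0', lv_zero]
      | 1 =>
        have h1 := hcomp 1
        rw [dif_succ W D 0 (by norm_num), hg'0, map_zero, zero_add] at h1
        rw [dif_succ W D 0 (by norm_num)]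
        change _ = res W D 0 β + gys W D 1 (-g' 2)
        change u = _ at h1
        rw [map_neg, ← hu, h1]
        abel
      | p + 2 =>
        have h1 := hcomp (p + 2)
        have h2 : (at1 u (p + 2) : Coh W D (p + 2)) = 0 := rfl
        rw [dif_succ W D (p + 1) (by norm_num), h2] at h1
        rw [dif_succ W D (p + 1) (by norm_num)]
        change _ = res W D (p + 1) (-g' (p + 1)) + gys W D (p + 2) (-g' (p + 3))
        rw [map_neg, map_neg]
        have h3 := eq_neg_of_add_eq_zero_left h1.symm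
        rw [h3]
        abel)
  have hG' : InE1 W D 2 0 G := hG
  have hfG' : f = dif W D 0 G := hfG
  have hG4 : G 4 = 0 := InE1.eq_zero hG' (by norm_num)
  have hf1 : f 1 = res W D 0 (G 0) + gys W D 1 (G 2) := by
    conv_lhs => rw [hfG']
    rw [dif_succ W D 0 (by norm_num)]
  have hf3 : f 3 = res W D 2 (G 2) := by
    conv_lhs => rw [hfG']
    rw [dif_succ W D 2 (by norm_num), hG4, map_zero, add_zero]
  have hgf1 : gys W D 0 (f 1) = 0 := by
    have h1 := congrFun hf0 0
    rw [dif_zero W D (by norm_num)] at h1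
    exact h1
  -- the divisor
  have hex : ∀ t : D.S 0, ∃ b ∈ Submodule.span W.K {y | ∃ z, (D.Y 0 t).IsCyc 1 z ∧
      W.cl (D.Y 0 t) z = y}, (∀ s r, D.face 0 r s ≠ t) ∨ ∀ C, (D.Y 0 t).IsCyc (d - 1) C →
        W.tr _ (G 0 t * W.cl _ C) = W.tr _ (b * W.cl _ C) := by
    intro t
    by_cases ht : ∀ s r, D.face 0 r s ≠ t
    · exact ⟨0, Submodule.zero_mem _, Or.inl ht⟩
    push Not at ht
    obtain ⟨s, r, rfl⟩ := ht
    have h1 := D.dim_add 0 (D.face 0 r s)
    obtain ⟨b, hb, hb'⟩ := exists_divisor (X := D.Y 0 (D.face 0 r s)) (q := d - 1) (by omega)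
      (hD s r) (G 0 (D.face 0 r s))
    exact ⟨b, hb, Or.inr hb'⟩
  choose b hb hbG using hex
  set τ : Coh W D 0 := G 0 - b with hτ
  have hτ0 : ∀ C ∈ Alg W D 0 (d - 1), (∀ t, (∀ s r, D.face 0 r s ≠ t) → C t = 0) →
      pair W D 0 τ C = 0 := by
    intro C hC hC0
    rw [pair_def]
    apply sum_eq_zero
    intro t _
    rcases hbG t with ht | ht
    · rw [hC0 t ht, mul_zero, map_zero]
    · obtain ⟨z, hz, h1⟩ := hC t
      rw [← h1, hτ, Pi.sub_apply, sub_mul, map_sub, ht z hz, sub_self]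
  have hGb : G 0 = b + τ := by rw [hτ, add_sub_cancel]
  obtain ⟨w, hw1, hw2⟩ := keyK W D hd hS hL (b := b) hb (by
    intro z hz
    have h1 : degF W D L 1 (d - 3) (f 1) (res W D 0 z) = 0 := by
      rw [← degF_adj W D hL, hgf1]
      simp [degF]
    have h2 : degF W D L 1 (d - 3) (gys W D 1 (G 2)) (res W D 0 z) = 0 := by
      rw [degF_adj W D hL, hS.res_res']
      simp [degF]
    have h3 : degF W D L 1 (d - 3) (res W D 0 τ) (res W D 0 z) = 0 := by
      have h4 : lv W D L (d - 3) 1 (res W D 0 z) ∈ Alg W D 1 (d - 2) := by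
        intro s
        obtain ⟨y, hy, h5⟩ := res_mem W D hz s
        obtain ⟨y', hy', h6⟩ := pow_mul_alg W (hL.cyc 1 s) hy (d - 3)
        rw [show d - 3 + 1 = d - 2 by omega] at hy'
        exact ⟨y', hy', by rw [h6, h5]; rfl⟩
      have h5 := gys_mem W D h4
      rw [show d - 2 + 1 = d - 1 by omega] at h5
      have h6 : degF W D L 1 (d - 3) (res W D 0 τ) (res W D 0 z) =
          pair W D 1 (res W D 0 τ) (lv W D L (d - 3) 1 (res W D 0 z)) := degF_eq_pair W D hL _ _ _ _
      rw [h6, ← pair_comm_even W D (e := fun _ => d - 2) (alg_gr h4), ← adj,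
        pair_comm_even W D (e := fun _ => d - 1) (alg_gr h5),
        hτ0 _ h5 fun t ht => gys_isolated W D ht _]
    rw [hf1, hGb, map_add, degF_add_left, degF_add_left, h2, h3, add_zero, add_zero] at h1
    exact h1)
  set y := lv W D L (d - 3) 2 (w + G 2) + g' 2 with hy
  have hpf1 : f 1 = gys W D 1 (w + G 2) + res W D 0 τ := by
    rw [hf1, hGb, map_add, map_add, hw2]
    abel
  have hpf3 : f 3 = res W D 2 (w + G 2) := by
    rw [hf3, map_add, hw1, zero_add]
  have huy : u = gys W D 1 y + res W D 0 (lv W D L (d - 3) 0 τ) := by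
    have h1 := hcomp 1
    rw [dif_succ W D 0 (by norm_num), hg'0, map_zero, zero_add] at h1
    change u = _ at h1
    rw [h1, hpf1, lv_add, lv_gys W D hL, lv_res W D hL, hy, map_add]
    abel
  have hry : res W D 2 y + gys W D 3 (g' 4) = 0 := by
    have h1 := hcomp 3
    have h2 : (at1 u 3 : Coh W D 3) = 0 := rfl
    rw [dif_succ W D 2 (by norm_num), h2, hpf3, lv_res W D hL, ← add_assoc, ← map_add] at h1
    exact h1.symm
  -- the boundary
  have hg5 : g 5 = 0 := InE1.eq_zero hg (by norm_num)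
  have hx : x = gys W D 0 (g 1) := by
    have h1 := congrFun hg' 0
    rw [dif_zero W D (by norm_num)] at h1
    exact h1.symm
  have hg3 : res W D 1 (g 1) + gys W D 2 (g 3) = 0 := by
    have h1 := congrFun hg' 2
    rw [dif_succ W D 1 (by norm_num)] at h1
    exact h1
  have hr3 : res W D 3 (g 3) = 0 := by
    have h1 := congrFun hg' 4
    rw [dif_succ W D 3 (by norm_num), hg5, map_zero, add_zero] at h1
    exact h1
  have hev1 : ∀ s, g 1 s ∈ W.gr _ (2 * 1) := fun s => InE1.gr hg 1 s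
  have hev3 : ∀ s, g 3 s ∈ W.gr _ (2 * 0) := fun s => InE1.gr hg 3 s
  have hev2 : ∀ s, res W D 1 (g 1) s ∈ W.gr _ (2 * 1) := by
    intro s
    rw [res_apply]
    exact Submodule.sum_mem _ fun i _ => Submodule.smul_mem _ _ (W.map_mem _ (hev1 _))
  have hsec : pair W D 1 (g 1) (res W D 0 (lv W D L (d - 3) 0 τ)) = 0 := by
    have h4 : lv W D L (d - 3) 0 x ∈ Alg W D 0 (d - 1) := by
      intro s
      obtain ⟨y, hy, h5⟩ := hx2 s
      obtain ⟨y', hy', h6⟩ := pow_mul_alg W (hL.cyc 0 s) hy (d - 3)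
      rw [show d - 3 + 2 = d - 1 by omega] at hy'
      exact ⟨y', hy', by rw [h6, h5]; rfl⟩
    have h5 : pair W D 0 x (lv W D L (d - 3) 0 τ) = pair W D 0 (lv W D L (d - 3) 0 x) τ := by
      rw [pair_lv]
      exact (degF_eq_pair W D hL _ _ _ _).symm
    rw [← adj, ← hx, h5, pair_comm_even W D (e := fun _ => d - 1) (alg_gr h4),
      hτ0 _ h4 fun t ht => by rw [lv, hx, gys_isolated W D ht, mul_zero]]
  rw [hx, adj, ← hu, huy, pair_add_right, hsec, add_zero,
    pair_comm_even W D (e := fun _ => 1) hev1, adj,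
    ← pair_comm_even W D (e := fun _ => 1) hev2, eq_neg_of_add_eq_zero_left hg3, pair_neg_left,
    adj, eq_neg_of_add_eq_zero_left hry, pair_neg_right,
    pair_comm_even W D (e := fun _ => 0) hev3, adj, hr3, pair_zero_right, neg_zero, neg_zero]

end A

end Pool.Agent.Helper7K9.CT
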