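import Pool.Agent.Helper7K9.KW.Defs

/-!
# Codimension two: definitions
-/

open CategoryTheory

universe u v

namespace Pool.Agent.Helper7K9.CT

open Pool.Agent.H914 Pool.Agent.H914.VarClass Pool.Agent.H914.VarClass.Obj
  Pool.Agent.H914.WeilCohomology Pool.Agent.Helper7K9.OL Pool.Agent.Helper7K9.KW

section Strata

variable {k : Type u} [Field k] {𝒱 : VarClass k} {ops : CycleOps 𝒱}
  (W : WeilCohomology.{u, v} ops) {d : ℕ} (D : Strata 𝒱 d)
  (L : ∀ p (s : D.S p), (D.Y p s).Cycles)

/-- Multiplication by the `j`-th power of the class of the divisors `L`. -/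
noncomputable def lef (j : ℕ) (f : Tot W D) : Tot W D :=
  fun p s => cls W (L p s) ^ j * f p s

/-- `L^(d-q) : E_2^(-k,q+k) → E_2^(-k,2d-q+k)` is surjective. -/
def LefSurj (q : ℕ) (k : ℤ) : Prop :=
  ∀ f, InE1 W D (2 * d - q) k f → dif W D k f = 0 →
    ∃ f' g, InE1 W D q k f' ∧ dif W D k f' = 0 ∧ InE1 W D (2 * d - q - 1) (k + 1) g ∧
      f = lef W D L (d - q) f' + dif W D (k + 1) g

/-- `L^(d-q) : E_2^(-k,q+k) → E_2^(-k,2d-q+k)` is injective. -/
def LefInj (q : ℕ) (k : ℤ) : Prop :=
  ∀ f, InE1 W D q k f → dif W D k f = 0 →
    (∃ g, InE1 W D (2 * d - q - 1) (k + 1) g ∧ lef W D L (d - q) f = dif W D (k + 1) g) →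
    ∃ g, InE1 W D (q - 1) (k + 1) g ∧ f = dif W D (k + 1) g

/-- The hard Lefschetz theorem for the weight spectral sequence: for `q ≤ d` the maps
`L^(d-q) : E_2^(-k,q+k) → E_2^(-k,2d-q+k)` are isomorphisms. If `D` is the closed fibre of a projective
strictly semistable scheme over a henselian discrete valuation ring with finite residue field (after
passage to the algebraic closure of the residue field), this follows from the hard Lefschetz theorem
for the generic fibre (Deligne), since the spectral sequence degenerates at `E_2` and
`E_2^(-k,q+k)` is the part of weight `q + k` of the cohomology of degree `q` of the generic fibre. -/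
def HardLefschetz : Prop := ∀ q k, 1 ≤ q → q ≤ d → LefSurj W D L q k ∧ LefInj W D L q k

/-- Homological and numerical equivalence agree for cycles of dimension `i - 1` on the components
(which have dimension `d`) which meet other components: if the class of such a cycle has product
zero with the classes of all cycles of codimension `i - 1`, it is zero. There is no condition if the
intersections of two components are empty (good reduction). -/
def HomEqNum (i : ℕ) : Prop :=
  ∀ (s : D.S 1) (r : Fin 2) (z : (D.Y 0 (D.face 0 r s)).Cycles),
    (D.Y 0 (D.face 0 r s)).IsCyc (d + 1 - i) z →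
    (∀ w, (D.Y 0 (D.face 0 r s)).IsCyc (i - 1) w → dg W (cls W z * cls W w) = 0) → cls W z = 0

/-- The family `x` on the components, as an element of `E_1^(0,*)`. -/
def at0 (x : Coh W D 0) : Tot W D
  | 0 => x
  | _ + 1 => 0

end Strata

/-- The Chow groups with rational coefficients which occur in the problem, for a regular scheme
`𝒳`, proper and flat over the ring of integers of a number field `E`, with smooth generic fibre `X`
of dimension `d`, and for a fixed codimension `i`. -/
structure Model where
  /-- the closed points of the spectrum of the ring of integers -/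
  Pl : Type
  /-- the logarithm of the order of the residue field -/
  logN : Pl → ℝ
  /-- `Ch^i(X)` -/
  ChX : Type
  [addX : AddCommGroup ChX]
  [modX : Module ℚ ChX]
  /-- the cohomologically trivial classes -/
  ChX0 : Submodule ℚ ChX
  /-- `Ch^i(𝒳)` -/
  Ch : Type
  [addCh : AddCommGroup Ch]
  [modCh : Module ℚ Ch]
  /-- restriction to the generic fibre -/
  rest : Ch →ₗ[ℚ] ChX
  rest_surj : Function.Surjective rest
  /-- the Chow group of cycles of dimension `d + 1 - i` on the fibre `𝒳_v`, which map to `Ch^i(𝒳)` -/
  A : Pl → Type
  [addA : ∀ v, AddCommGroup (A v)]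
  [modA : ∀ v, Module ℚ (A v)]
  /-- the Chow group of cycles of dimension `i` on `𝒳_v`; `Ch^(d+1-i)_fin(𝒳)` is the sum of the
  images of the groups `B v` -/
  B : Pl → Type
  [addB : ∀ v, AddCommGroup (B v)]
  [modB : ∀ v, Module ℚ (B v)]
  /-- push-forward to `𝒳` -/
  ofA : ∀ v, A v →ₗ[ℚ] Ch
  rest_ofA : ∀ v a, rest (ofA v a) = 0
  /-- the intersection number, over the residue field, of a class on `𝒳` and a cycle on `𝒳_v` -/
  int : ∀ v, Ch →ₗ[ℚ] B v →ₗ[ℚ] ℚ
  /-- cycles on different fibres are disjoint -/
  int_ne : ∀ v w a b, v ≠ w → int w (ofA v a) b = 0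
  /-- cohomologically trivial classes are numerically trivial on almost all fibres (specialization
  at the fibres which are smooth) -/
  finite : ∀ z, rest z ∈ ChX0 → {v | ∃ b, int v z b ≠ 0}.Finite

attribute [instance] Model.addX Model.modX Model.addCh Model.modCh Model.addA Model.modA
  Model.addB Model.modB

/-- The intersection number of `z` and `b`. -/
def Model.num (M : Model) (v : M.Pl) (z : M.Ch) (b : M.B v) : ℚ := M.int v z b

/-- The arithmetic intersection number of Gillet and Soulé of a class `z` on `𝒳` and a cycle `b` on
the fibre over `v` (for such cycles no Green current is needed). -/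
noncomputable def Model.GS (M : Model) (z : M.Ch) (v : M.Pl) (b : M.B v) : ℝ :=
  (M.num v z b : ℝ) * M.logN v

/-- The assertion Q1 for `𝒳` and `i`: every cohomologically trivial class of codimension `i` on
`X` is the restriction of a class on `𝒳` whose pairing with all classes supported in closed fibres
is zero. -/
def Model.OrthogonalLifting (M : Model) : Prop :=
  ∀ c ∈ M.ChX0, ∃ z, M.rest z = c ∧ ∀ v b, M.GS z v b = 0

variable {k : Type} [Field k] {𝒱 : VarClass k} {ops : CycleOps 𝒱}

/-- The maps attached to correspondences between `X` and a variety `X'` at the place `v`. Here `X'`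
is a smooth projective variety, not necessarily connected, all components of which have dimension
`d`, over a finite extension `E'` of the completion of `E` at `v`, with a projective strictly
semistable model `𝒳'` over the ring of integers of `E'`, whose closed fibre, over the algebraic
closure `k` of the residue field, has the strata `D`; and `Γ` on `X × X'` and `Γ'` on `X' × X` are
correspondences (over `E'`) which map `Ch^i(X)` to `Ch^j(X')` and back. The closures of `Γ` and `Γ'`
act on the Chow groups of the models (pull back to and push forward from regular alterations of the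
components of the closures), and respect the cycles on the closed fibres. All cycles on the
closed fibre of `𝒳'` over `k` are defined over unramified extensions of finite degree, so that they have
push-forwards, which we divide by the residue degree. -/
structure Transfer (M : Model) (v : M.Pl) {d : ℕ} (D : Strata 𝒱 d) where
  /-- the restriction of `Γ z` to the components of the closed fibre -/
  spec : M.Ch → ∀ t, (D.Y 0 t).Cycles
  /-- the image of `b` under the transpose of `Γ'`, as a sum of cycles on the components of the
  closed fibre -/
  tra : M.B v → ∀ t, (D.Y 0 t).Cycles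
  /-- the image under `Γ'` of the sum of the cycles `α t` of codimension `j - 1` on the components -/
  push : (∀ t, (D.Y 0 t).Cycles) → M.A v

variable {M : Model} {v : M.Pl} {d : ℕ} {D : Strata 𝒱 d}

/-- The codimensions, and the projection formulas; `f z b` is the intersection number of `Γ' Γ z` and
`b` (over the residue field, divided by the residue degree of `E'`). It is the intersection number
of `Γ z` and the transform of `b`, and the intersection number of `Γ' α` and `b` is the one of `α` and
the transform of `b`; by the formula for the intersection number of two cycles `α` and `β` on the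
closed fibre of a strictly semistable scheme this is `- Σ deg ((ρ α)_s (ρ β)_s)`, the sum over the
intersections of two components. -/
structure IsCompatible (j : ℕ) (f : M.Ch → M.B v → ℚ) (G : Transfer M v D)
    (W : WeilCohomology.{0, 0} ops) : Prop where
  spec_cyc : ∀ z t, (D.Y 0 t).IsCyc j (G.spec z t)
  tra_cyc : ∀ b t, (D.Y 0 t).IsCyc (d - j) (G.tra b t)
  int_eq : ∀ z b, ((f z b : ℚ) : W.K) =
    pair W D 0 (clF W D 0 (G.spec z)) (clF W D 0 (G.tra b))
  int_push : ∀ α, (∀ t, (D.Y 0 t).IsCyc (j - 1) (α t)) → ∀ b,
    ((M.num v (M.ofA v (G.push α)) b : ℚ) : W.K) =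
      - pair W D 1 (resF W D 0 (clF W D 0 α)) (resF W D 0 (clF W D 0 (G.tra b)))

/-- The weight spectral sequence of Rapoport and Zink, which degenerates at `E_2`: if `z` is
cohomologically trivial on `X`, then the element of `E_1^(0,2j)` given by the classes of `Γ z` on the
components is a boundary. -/
def HasWeightBoundaries (j : ℕ) (G : Transfer M v D) (W : WeilCohomology.{0, 0} ops) : Prop :=
  ∀ z, M.rest z ∈ M.ChX0 →
    ∃ g, InE1 W D (2 * j - 1) 1 g ∧ dif W D 1 g = at0 W D (clF W D 0 (G.spec z))

/-- The sum of finitely many endomorphisms `Γ'_r Γ_r` of `Ch^i(X)` as above is the multiplication by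
a positive number `m` on the cohomologically trivial classes over the completion of `E` at `v`. So
for `z` on `𝒳` with cohomologically trivial restriction to `X` the sum of the classes `Γ'_r Γ_r z`,
which have the intersection numbers `f r z b`, differs from `m z` by the class of a cycle `a` on the
closed fibre. -/
def Decomposes (M : Model) (v : M.Pl) {n : ℕ} (f : Fin n → M.Ch → M.B v → ℚ) : Prop :=
  ∃ m : ℚ, 0 < m ∧ ∀ z, M.rest z ∈ M.ChX0 → ∃ a, ∀ b,
    m * M.num v z b + M.num v (M.ofA v a) b = ∑ r, f r z b

/-- The numbers `f z b` come from correspondences as above between `X` and a variety `X'` of dimension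
`d ≥ 3` with strictly semistable reduction, with `j = 2`, such that homological and numerical
equivalence agree for one-cycles on the components, which meet other components, of the closed
fibre of the model of `X'`. -/
def IsTwoPiece (M : Model) (v : M.Pl) (f : M.Ch → M.B v → ℚ) : Prop :=
  ∃ (k : Type) (_ : Field k) (_ : IsAlgClosed k) (𝒱 : VarClass k) (ops : CycleOps 𝒱)
    (W : WeilCohomology.{0, 0} ops) (d : ℕ) (D : Strata 𝒱 d)
    (L : ∀ p (s : D.S p), (D.Y p s).Cycles) (G : Transfer M v D), 3 ≤ d ∧ IsSemistable W D ∧
      IsPolarized W D L ∧ HardLefschetz W D L ∧ HomEqNum W D 2 ∧ IsCompatible 2 f G W ∧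
      HasWeightBoundaries 2 G W

/-- The weight-monodromy conjecture in degree `q` and weight `q + 1`: the map
`N : E_2^(-1,q+1) → E_2^(1,q-1)`, which is induced by the identity of `E_1^(-1,q+1) = E_1^(1,q-1)`, is
injective. (By duality this is equivalent to the surjectivity in degree `2d - q`.) -/
def WeightMonodromy (W : WeilCohomology.{0, 0} ops) (D : Strata 𝒱 d) (q : ℕ) : Prop :=
  ∀ f, InE1 W D q 1 f → dif W D 1 f = 0 →
    (∃ g, InE1 W D (q - 1) 0 g ∧ dif W D 0 g = f) →
    ∃ g, InE1 W D (q - 1) 2 g ∧ dif W D 2 g = f

/-- The numbers `f z b` come from correspondences as above between `X` and a variety `X'` with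
strictly semistable reduction such that the weight-monodromy conjecture holds for the cohomology of
`X'` in degree `2 (d - j) + 1` (equivalently, `2j - 1`), and homological and numerical equivalence
agree for cycles of dimension `j - 1` on the components, which meet other components, of the closed
fibre of the model of `X'`. -/
def IsPurePiece (M : Model) (v : M.Pl) (f : M.Ch → M.B v → ℚ) : Prop :=
  ∃ (k : Type) (_ : Field k) (_ : IsAlgClosed k) (𝒱 : VarClass k) (ops : CycleOps 𝒱)
    (W : WeilCohomology.{0, 0} ops) (d j : ℕ) (D : Strata 𝒱 d) (G : Transfer M v D), 1 ≤ j ∧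
      j ≤ d ∧ IsSemistable W D ∧ WeightMonodromy W D (2 * (d - j) + 1) ∧ HomEqNum W D j ∧
      IsCompatible j f G W ∧ HasWeightBoundaries j G W

end Pool.Agent.Helper7K9.CT
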