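import Pool.Agent.Helper7K9.CT.Defs

/-!
# Codimension two and the Hodge index theorem: definitions
-/

open CategoryTheory

universe u v

namespace Pool.Agent.Helper7K9.CT

open Pool.Agent.H914 Pool.Agent.H914.VarClass Pool.Agent.H914.VarClass.Obj
  Pool.Agent.H914.WeilCohomology Pool.Agent.Helper7K9.OL Pool.Agent.Helper7K9.KW

/-- The Hodge index theorem (Hodge standard conjecture) in codimension two, in numerical form, on a
smooth projective variety of dimension `m + 4` with the class `l` of an ample divisor: if `z` is a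
cycle of codimension two and the product of `l ^ (m + 1) z` and every divisor is zero, then
`l ^ m z ^ 2 ≥ 0`, with equality only if `z` is numerically trivial. -/
def HodgeIndexTwo {k : Type u} [Field k] {𝒱 : VarClass k} {ops : CycleOps 𝒱}
    (W : WeilCohomology.{u, v} ops) (X : 𝒱.Obj) (l : W.H X) : Prop :=
  ∀ m, X.dim = m + 4 → ∀ z : X.Cycles, X.IsCyc 2 z →
    (∀ w, X.IsCyc 1 w → dg W (l ^ (m + 1) * (cls W z * cls W w)) = 0) →
    ∀ r : ℚ, dg W (l ^ m * (cls W z * cls W z)) = (r : W.K) →
      0 ≤ r ∧ (r = 0 → ∀ w, X.IsCyc (m + 2) w → dg W (cls W z * cls W w) = 0)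

/-- The numbers `f z b` come from correspondences as above between `X` and a variety `X'` of dimension
`d ≥ 4` with strictly semistable reduction, with `j = 2`, such that the Hodge index theorem in
codimension two holds for the components, which meet other components, of the closed fibre of the
model of `X'`. -/
def IsHodgePiece (M : Model) (v : M.Pl) (f : M.Ch → M.B v → ℚ) : Prop :=
  ∃ (k : Type) (_ : Field k) (_ : IsAlgClosed k) (𝒱 : VarClass k) (ops : CycleOps 𝒱)
    (W : WeilCohomology.{0, 0} ops) (d : ℕ) (D : Strata 𝒱 d)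
    (L : ∀ p (s : D.S p), (D.Y p s).Cycles) (G : Transfer M v D), 4 ≤ d ∧ IsSemistable W D ∧
      IsPolarized W D L ∧
      (∀ s r, HodgeIndexTwo W (D.Y 0 (D.face 0 r s)) (cls W (L 0 (D.face 0 r s)))) ∧
      IsCompatible 2 f G W ∧ HasWeightBoundaries 2 G W

end Pool.Agent.Helper7K9.CT
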