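import Pool.Agent.Helper7K9.CT.Defs

/-!
# Divisors, zero-cycles and one-cycles: definitions
-/

open CategoryTheory

universe u v

namespace Pool.Agent.Helper7K9.CT

open Pool.Agent.H914 Pool.Agent.H914.VarClass Pool.Agent.H914.VarClass.Obj
  Pool.Agent.H914.WeilCohomology Pool.Agent.Helper7K9.OL Pool.Agent.Helper7K9.KW

/-- The numbers `f z b` come from correspondences as above between `X` and a variety `X'` of dimension
`d` with strictly semistable reduction, for the codimension `j = 1`, `j = d` or `j = d - 1`: they map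
`Ch^i(X)` to the group of divisors, zero-cycles or one-cycles on `X'` and back. -/
def IsBasicPiece (M : Model) (v : M.Pl) (f : M.Ch → M.B v → ℚ) : Prop :=
  ∃ (k : Type) (_ : Field k) (_ : IsAlgClosed k) (𝒱 : VarClass k) (ops : CycleOps 𝒱)
    (W : WeilCohomology.{0, 0} ops) (d j : ℕ) (D : Strata 𝒱 d)
    (L : ∀ p (s : D.S p), (D.Y p s).Cycles) (G : Transfer M v D), 1 ≤ j ∧ j ≤ d ∧
      (j = 1 ∨ j = d ∨ j + 1 = d) ∧ IsSemistable W D ∧ IsPolarized W D L ∧ IsCompatible j f G W ∧
      HasWeightBoundaries j G W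

end Pool.Agent.Helper7K9.CT
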