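import Pool.Agent.Helper7K9.CT.DefsH
import Pool.Agent.Helper7K9.CT.Gen

/-!
# Codimension two and the Hodge index theorem
-/

open CategoryTheory Finset

universe u v

namespace Pool.Agent.Helper7K9.CT

open Pool.Agent.H914 Pool.Agent.H914.VarClass Pool.Agent.H914.VarClass.Obj
  Pool.Agent.H914.WeilCohomology Pool.Agent.Helper7K9.OL Pool.Agent.Helper7K9.KW

section A

variable {k : Type} [Field k] {𝒱 : VarClass k} {ops : CycleOps 𝒱}
  {W : WeilCohomology.{0, 0} ops} {d : ℕ} {D : Strata 𝒱 d} {L : ∀ p (s : D.S p), (D.Y p s).Cycles}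

lemma InE1.eq_zeroH {q : ℕ} {k : ℤ} {f : Tot W D} (h : InE1 W D q k f) {p : ℕ}
    (hp : ¬ (p ≤ q ∧ k.natAbs ≤ p ∧ Even ((p : ℤ) + k))) : f p = 0 := by
  funext s
  exact (h p s).2.resolve_right hp

/-- The form as a linear functional. -/
noncomputable def degL (L : ∀ p (s : D.S p), (D.Y p s).Cycles) (p e : ℕ) (x : Coh W D p) :
    Coh W D p →ₗ[W.K] W.K where
  toFun y := degF W D L p e x y
  map_add' := degF_add_right W D L p e x
  map_smul' := by
    intro c y
    simp [degF, mul_sum]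

/-- The functional of `α`. -/
noncomputable def psiL (L : ∀ p (s : D.S p), (D.Y p s).Cycles) (e : ℕ) :
    Coh W D 0 →+ (Coh W D 0 →ₗ[W.K] W.K) where
  toFun x := degL L 1 e (res W D 0 x) ∘ₗ res W D 0
  map_zero' := by
    refine LinearMap.ext fun y => ?_
    change degF W D L 1 e (res W D 0 0) (res W D 0 y) = 0
    rw [map_zero]
    simp [degF]
  map_add' := by
    intro x x'
    refine LinearMap.ext fun y => ?_
    change degF W D L 1 e (res W D 0 (x + x')) (res W D 0 y) =
      degF W D L 1 e (res W D 0 x) (res W D 0 y) + degF W D L 1 e (res W D 0 x') (res W D 0 y)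
    rw [map_add, degF_add_left]

lemma alg_grH {p q : ℕ} {x : Coh W D p} (hx : x ∈ Alg W D p q) (s) :
    x s ∈ W.gr (D.Y p s) (2 * q) := by
  obtain ⟨y, hy, h1⟩ := hx s
  rw [← h1]
  exact W.cl_mem hy

lemma degF_comm_even (p e : ℕ) {j : ℕ} {x : Coh W D p} (hx : ∀ s, x s ∈ W.gr _ (2 * j))
    (y : Coh W D p) : degF W D L p e x y = degF W D L p e y x := by
  rw [degF, degF]
  apply sum_congr rfl
  intro s _
  rw [W.even_comm (hx s)]

theorem critH (hd : 4 ≤ d) (hS : IsSemistable W D) (hL : IsPolarized W D L)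
    (hH : ∀ s r, HodgeIndexTwo W (D.Y 0 (D.face 0 r s)) (W.cl _ (L 0 (D.face 0 r s))))
    {x β : Coh W D 0} (hx2 : x ∈ Alg W D 0 2) (hβ : β ∈ Alg W D 0 (d - 2))
    (h : ∀ α ∈ Alg W D 0 1, pair W D 1 (res W D 0 α) (res W D 0 β) = 0)
    {g : Tot W D} (hg : InE1 W D 3 1 g) (hg' : dif W D 1 g = at0 W D x) :
    pair W D 0 x β = 0 := by
  classical
  have hx : x = gys W D 0 (g 1) := by
    have h1 := congrFun hg' 0
    rw [dif_zero W D (by norm_num)] at h1
    exact h1.symm
  have hg3 : res W D 1 (g 1) + gys W D 2 (g 3) = 0 := by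
    have h1 := congrFun hg' 2
    rw [dif_succ W D 1 (by norm_num)] at h1
    exact h1
  have hev1 : ∀ s, g 1 s ∈ W.gr _ (2 * 1) := fun s => (hg 1 s).1
  have hev2 : ∀ s, res W D 1 (g 1) s ∈ W.gr _ (2 * 1) := by
    intro s
    rw [res_apply]
    exact Submodule.sum_mem _ fun i _ => Submodule.smul_mem _ _ (W.map_mem _ (hev1 _))
  -- the divisors
  obtain ⟨α, hα⟩ := fr W.K (Fam D 0 1) (Fam D 0 1) (Coh W D 0)
    ((clA W D 0).comp (Fam D 0 1).subtype.toAddMonoidHom)
    (((psiL L (d - 3)).comp (clA W D 0)).comp (Fam D 0 1).subtype.toAddMonoidHom)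
    (-(degL L 0 (d - 3) x)) (by
      intro α δ
      exact degF_rat W D hL (p := 1) (e := d - 3) (q := 1) (q' := 1) (by omega)
        (res_mem W D (clF_mem W D α.2)) (res_mem W D (clF_mem W D δ.2))) (by
      intro δ
      obtain ⟨r, hr⟩ := degF_rat W D hL (p := 0) (e := d - 3) (q := 2) (q' := 1) (by omega)
        hx2 (clF_mem W D δ.2)
      refine ⟨-r, ?_⟩
      rw [Rat.cast_neg, ← hr]
      rfl) (by
      intro δ hδ
      obtain ⟨c, hc, hδc⟩ := keyC W D (by omega) hS hL (clF_mem W D δ.2) (by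
        intro z hz
        choose α hα hαz using hz
        have h3 := hδ ⟨α, hα⟩
        have h4 : clF W D 0 α = z := funext hαz
        have h5 : degF W D L 1 (d - 3) (res W D 0 (clF W D 0 α))
            (res W D 0 (clF W D 0 δ.1)) = 0 := h3
        rw [h4] at h5
        rw [degF_comm W D hL _ _ (res_mem W D (clF_mem W D δ.2)), h5])
      change - degF W D L 0 (d - 3) x (clF W D 0 δ.1) = 0
      have hc0 : res W D 2 (cst W D 2 c) = 0 := by rw [res_cst, hc, map_zero]
      rw [hx, degF_adj W D hL, hδc, degF_comm_even _ _ hev1, degF_adj W D hL,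
        ← degF_comm_even _ _ hev2, eq_neg_of_add_eq_zero_left hg3]
      have h6 : degF W D L 2 (d - 3) (-gys W D 2 (g 3)) (cst W D 2 c) =
          - degF W D L 2 (d - 3) (gys W D 2 (g 3)) (cst W D 2 c) := by
        simp [degF]
      rw [h6, degF_adj W D hL, hc0]
      simp [degF])
  set a : Coh W D 0 := clF W D 0 α.1 with ha
  have haA : a ∈ Alg W D 0 1 := clF_mem W D α.2
  set x' : Coh W D 0 := x + gys W D 0 (res W D 0 a) with hx'
  have hxA : x' ∈ Alg W D 0 2 := AddSubgroup.add_mem _ hx2 (gys_mem W D (res_mem W D haA))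
  have hx'g : x' = gys W D 0 (g 1 + res W D 0 a) := by rw [hx', hx, map_add]
  have horth : ∀ δ ∈ Alg W D 0 1, degF W D L 0 (d - 3) x' δ = 0 := by
    intro δ hδ
    choose w hw hwδ using hδ
    have h1 := hα ⟨w, hw⟩
    have h2 : clF W D 0 w = δ := funext hwδ
    have h3 : degF W D L 1 (d - 3) (res W D 0 a) (res W D 0 (clF W D 0 w)) =
        - degF W D L 0 (d - 3) x (clF W D 0 w) := h1
    rw [h2] at h3
    rw [hx', degF_add_left, degF_adj W D hL, h3, add_neg_cancel]
  have hres : res W D 0 x' = 0 := by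
    have h1 := hS.res_gys' 0 (g 1 + res W D 0 a)
    rw [map_add (res W D (0 + 1)), hS.res_res', add_zero, eq_neg_of_add_eq_zero_left hg3,
      map_neg, gys_gys W D hS, neg_zero, add_zero] at h1
    rw [hx'g]
    exact h1
  have hself : degF W D L 0 (d - 4) x' x' = 0 := by
    have h1 : degF W D L 0 (d - 4) (gys W D 0 (g 1 + res W D 0 a)) x' = 0 := by
      rw [degF_adj W D hL, hres]
      simp [degF]
    rwa [← hx'g] at h1
  -- the numbers on the components
  have hnum : ∀ t, ∃ r : ℚ, W.tr _ (W.cl _ (L 0 t) ^ (d - 4) * (x' t * x' t)) = (r : W.K) ∧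
      0 ≤ r ∧ (r = 0 → ∀ w, (D.Y 0 t).IsCyc (d - 2) w → W.tr _ (x' t * W.cl _ w) = 0) := by
    intro t
    by_cases ht : ∀ s r, D.face 0 r s ≠ t
    · have h0 : x' t = 0 := by
        rw [hx'g]
        exact gys_isolated W D ht _
      exact ⟨0, by simp [h0], le_rfl, fun _ w _ => by simp [h0]⟩
    push Not at ht
    obtain ⟨s, r, rfl⟩ := ht
    obtain ⟨z, hz, hzx⟩ := hxA (D.face 0 r s)
    have hdim := D.dim_add 0 (D.face 0 r s)
    obtain ⟨q, hq⟩ := rational W (hL.cyc 0 (D.face 0 r s)) hz hz (e := d - 4) (by omega)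
    rw [hzx] at hq
    have h1 := hH s r (d - 4) (by omega) z hz (by
      intro w hw
      have h2 := horth (Pi.single (D.face 0 r s) (W.cl _ w)) (by
        intro t
        by_cases ht : t = D.face 0 r s
        · subst ht
          exact ⟨w, hw, by rw [Pi.single_eq_same]⟩
        · exact ⟨0, SmVar.IsCyc.zero _ _, by rw [Pi.single_eq_of_ne ht, map_zero]⟩)
      rw [degF, Finset.sum_eq_single (D.face 0 r s)] at h2
      · rw [Pi.single_eq_same, ← hzx, show d - 3 = d - 4 + 1 by omega] at h2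
        exact h2
      · intro t _ ht
        rw [Pi.single_eq_of_ne ht, mul_zero, mul_zero, map_zero]
      · intro h3
        exact absurd (mem_univ _) h3) q (by
      change W.tr _ (W.cl _ (L 0 (D.face 0 r s)) ^ (d - 4) * (W.cl _ z * W.cl _ z)) = _
      rw [hzx]
      exact hq)
    refine ⟨q, hq, h1.1, fun h2 w hw => ?_⟩
    have h3 := h1.2 h2 w (by rwa [show d - 4 + 2 = d - 2 by omega])
    change W.tr _ (W.cl _ z * W.cl _ w) = 0 at h3
    rwa [hzx] at h3
  choose r hr hr0 hr1 using hnum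
  have hsum : ∑ t, r t = 0 := by
    have h1 : ((∑ t, r t : ℚ) : W.K) = 0 := by
      rw [← hself, degF]
      push_cast
      exact sum_congr rfl fun t _ => (hr t).symm
    exact_mod_cast h1
  rw [sum_eq_zero_iff_of_nonneg fun t _ => hr0 t] at hsum
  have hpair : pair W D 0 x' β = 0 := by
    rw [pair_def]
    apply sum_eq_zero
    intro t _
    obtain ⟨w, hw, hwβ⟩ := hβ t
    rw [← hwβ]
    exact hr1 t (hsum t (mem_univ t)) w hw
  rw [hx', pair_add_left, adj, h a haA, add_zero] at hpair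
  exact hpair

end A

theorem codim_two_hodge (M : Model) (h : ∀ v, ∃ (n : ℕ) (f : Fin n → M.Ch → M.B v → ℚ),
    Decomposes M v f ∧ ∀ r, IsHodgePiece M v (f r)) : M.OrthogonalLifting := by
  apply global
  intro v z hz
  obtain ⟨n, f, hf, hp⟩ := h v
  apply local_ M v hf z hz
  intro r
  obtain ⟨k, _, _, 𝒱, ops, W, d, D, L, G, hd, hS, hL, hH, hG, hW⟩ := hp r
  obtain ⟨g, hg, hg'⟩ := hW z hz
  exact piece W D (by norm_num) (by omega) M v (f r) G hG z fun β hβ hα =>
    critH hd hS hL hH (clF_mem W D (hG.spec_cyc z)) hβ hα hg hg'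

end Pool.Agent.Helper7K9.CT
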