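import Pool.Agent.Helper7K9.CT.Bas

/-!
# The key lemma with coefficients
-/

open CategoryTheory Finset

universe u v

namespace Pool.Agent.Helper7K9.CT

open Pool.Agent.H914 Pool.Agent.H914.VarClass Pool.Agent.H914.VarClass.Obj
  Pool.Agent.H914.WeilCohomology Pool.Agent.Helper7K9.OL Pool.Agent.Helper7K9.KW

/-- Expansion of an element of the span of a rational subspace in a rational basis of the
field. -/
lemma exists_expand {K : Type} [Field K] [CharZero K] {V : Type} [AddCommGroup V] [Module K V]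
    (A : Set V) (h0 : (0 : V) ∈ A) (hadd : ∀ x ∈ A, ∀ y ∈ A, x + y ∈ A)
    (hsm : ∀ x ∈ A, ∀ r : ℚ, (r : K) • x ∈ A) {ι : Type} (B : Module.Basis ι ℚ K) {x : V}
    (hx : x ∈ Submodule.span K A) :
    ∃ b : ι →₀ V, (∀ i, b i ∈ A) ∧ x = b.sum fun i v => B i • v := by
  classical
  have hsum : ∀ b b' : ι →₀ V, (b + b').sum (fun i v => B i • v) =
      b.sum (fun i v => B i • v) + b'.sum (fun i v => B i • v) := fun b b' =>
    Finsupp.sum_add_index' (fun i => smul_zero _) (fun i v w => smul_add _ _ _)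
  have key : ∀ (c : K) (v : V), v ∈ A →
      ∃ b : ι →₀ V, (∀ i, b i ∈ A) ∧ c • v = b.sum fun i v => B i • v := by
    intro c v hv
    refine ⟨(B.repr c).mapRange (fun r : ℚ => (r : K) • v) (by simp), ?_, ?_⟩
    · intro i
      rw [Finsupp.mapRange_apply]
      exact hsm v hv _
    · rw [Finsupp.sum_mapRange_index (fun i => smul_zero _)]
      conv_lhs => rw [← B.linearCombination_repr c, Finsupp.linearCombination_apply, Finsupp.sum]
      rw [sum_smul, Finsupp.sum]
      apply sum_congr rfl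
      intro i _
      rw [smul_smul, Rat.smul_def, mul_comm]
  induction hx using Submodule.span_induction with
  | mem v hv =>
    obtain ⟨b, hb, h⟩ := key 1 v hv
    exact ⟨b, hb, by rw [← h, one_smul]⟩
  | zero => exact ⟨0, fun i => h0, by simp⟩
  | add v w _ _ hv hw =>
    obtain ⟨b, hb, rfl⟩ := hv
    obtain ⟨b', hb', rfl⟩ := hw
    exact ⟨b + b', fun i => hadd _ (hb i) _ (hb' i), (hsum b b').symm⟩
  | smul c v _ hv =>
    obtain ⟨b, hb, rfl⟩ := hv
    rw [Finsupp.smul_sum]
    simp only [smul_smul]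
    unfold Finsupp.sum
    have : ∀ t : Finset ι, ∃ b' : ι →₀ V, (∀ i, b' i ∈ A) ∧
        ∑ a ∈ t, (c * B a) • b a = b'.sum fun i v => B i • v := by
      intro t
      induction t using Finset.induction_on with
      | empty => exact ⟨0, fun i => h0, by simp⟩
      | insert a t ha ih =>
        obtain ⟨b₁, hb₁, h₁⟩ := ih
        obtain ⟨b₂, hb₂, h₂⟩ := key (c * B a) (b a) (hb a)
        exact ⟨b₂ + b₁, fun i => hadd _ (hb₂ i) _ (hb₁ i), by rw [sum_insert ha, h₁, h₂, hsum]⟩
    exact this _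

section A

variable {k : Type} [Field k] {𝒱 : VarClass k} {ops : CycleOps 𝒱}
  (W : WeilCohomology.{0, 0} ops) {d : ℕ} (D : Strata 𝒱 d) {L : ∀ p (s : D.S p), (D.Y p s).Cycles}

lemma degF_sum_left {ι : Type*} (L : ∀ p (s : D.S p), (D.Y p s).Cycles) (p e : ℕ) (t : Finset ι)
    (c : ι → W.K) (x : ι → Coh W D p) (y : Coh W D p) :
    degF W D L p e (∑ i ∈ t, c i • x i) y = ∑ i ∈ t, c i * degF W D L p e (x i) y := by
  classical
  induction t using Finset.induction_on with
  | empty => simp [degF]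
  | insert a t ha ih =>
    rw [sum_insert ha, sum_insert ha, degF_add_left, ih]
    congr 1
    rw [degF, degF, mul_sum]
    apply sum_congr rfl
    intro s _
    rw [Pi.smul_apply, smul_mul_assoc, mul_smul_comm, map_smul, smul_eq_mul]

/-- The key lemma with coefficients. -/
theorem keyK (hd : 3 ≤ d) (hS : IsSemistable W D) (hL : IsPolarized W D L) {b : Coh W D 0}
    (hb : ∀ t, b t ∈ Submodule.span W.K {y | ∃ z, (D.Y 0 t).IsCyc 1 z ∧ W.cl _ z = y})
    (h : ∀ x ∈ Alg W D 0 1, degF W D L 1 (d - 3) (res W D 0 b) (res W D 0 x) = 0) :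
    ∃ w : Coh W D 2, res W D 2 w = 0 ∧ res W D 0 b = gys W D 1 w := by
  classical
  let B := Module.Basis.ofVectorSpace ℚ W.K
  have hb' : ∀ t, ∃ c : Module.Basis.ofVectorSpaceIndex ℚ W.K →₀ W.H (D.Y 0 t),
      (∀ i, c i ∈ {y | ∃ z, (D.Y 0 t).IsCyc 1 z ∧ W.cl _ z = y}) ∧
      b t = c.sum fun i v => B i • v := by
    intro t
    apply exists_expand _ _ _ _ B (hb t)
    · exact ⟨0, SmVar.IsCyc.zero _ _, map_zero _⟩
    · rintro x ⟨z, hz, rfl⟩ y ⟨w, hw, rfl⟩
      exact ⟨z + w, SmVar.IsCyc.add hz hw, map_add _ _ _⟩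
    · rintro x ⟨z, hz, rfl⟩ r
      exact ⟨r • z, SmVar.IsCyc.smul _ hz, by rw [W.cl_smul]⟩
  choose c hc hbc using hb'
  let I : Finset (Module.Basis.ofVectorSpaceIndex ℚ W.K) := univ.biUnion fun t => (c t).support
  let f : Module.Basis.ofVectorSpaceIndex ℚ W.K → Coh W D 0 := fun i t => c t i
  have hf : ∀ i, f i ∈ Alg W D 0 1 := fun i t => hc t i
  have hbf : b = ∑ i ∈ I, B i • f i := by
    funext t
    rw [hbc t, Finset.sum_apply, Finsupp.sum]
    have h1 : (c t).support ⊆ I := fun i hi => mem_biUnion.2 ⟨t, mem_univ t, hi⟩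
    rw [← Finset.sum_subset h1]
    · rfl
    · intro i _ hi
      rw [Pi.smul_apply]
      change B i • c t i = 0
      rw [Finsupp.notMem_support_iff.1 hi, smul_zero]
  have hres : res W D 0 b = ∑ i ∈ I, B i • res W D 0 (f i) := by
    rw [hbf, map_sum]
    exact sum_congr rfl fun i _ => map_smul _ _ _
  have hortho : ∀ i ∈ I, ∀ x ∈ Alg W D 0 1,
      degF W D L 1 (d - 3) (res W D 0 (f i)) (res W D 0 x) = 0 := by
    intro i hi x hx
    have h1 : ∀ j, ∃ r : ℚ, degF W D L 1 (d - 3) (res W D 0 (f j)) (res W D 0 x) = (r : W.K) :=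
      fun j => degF_rat W D hL (p := 1) (e := d - 3) (q := 1) (q' := 1) (by omega)
        (res_mem W D (hf j)) (res_mem W D hx)
    choose r hr using h1
    have h2 : ∑ j ∈ I, r j • B j = 0 := by
      have h3 := h x hx
      rw [hres, degF_sum_left] at h3
      rw [← h3]
      apply sum_congr rfl
      intro j _
      rw [hr, Rat.smul_def, mul_comm]
    have h3 := linearIndependent_iff'.1 B.linearIndependent I r h2 i hi
    rw [hr, h3, Rat.cast_zero]
  have hkey : ∀ i, ∃ a : D.S 2 → ℚ, i ∈ I → sc D 2 a = 0 ∧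
      res W D 0 (f i) = gys W D 1 (cst W D 2 a) := by
    intro i
    by_cases hi : i ∈ I
    · obtain ⟨a, ha⟩ := keyC W D hd hS hL (hf i) (hortho i hi)
      exact ⟨a, fun _ => ha⟩
    · exact ⟨0, fun h => absurd h hi⟩
  choose a ha using hkey
  refine ⟨∑ i ∈ I, B i • cst W D 2 (a i), ?_, ?_⟩
  · rw [map_sum]
    apply sum_eq_zero
    intro i hi
    rw [map_smul, res_cst, (ha i hi).1, map_zero, smul_zero]
  · rw [hres, map_sum]
    apply sum_congr rfl
    intro i hi
    rw [map_smul, (ha i hi).2]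

variable {W} in
/-- Numerically trivial combinations of classes of curves vanish. -/
lemma homEqNum_span {X : 𝒱.Obj} {q : ℕ} (hq : q + 1 = X.dim)
    (h : ∀ z : X.Cycles, X.IsCyc q z →
      (∀ w, X.IsCyc 1 w → W.tr X (W.cl X z * W.cl X w) = 0) → W.cl X z = 0) {r : W.H X}
    (hr : r ∈ Submodule.span W.K {y | ∃ z, X.IsCyc q z ∧ W.cl X z = y})
    (h0 : ∀ w, X.IsCyc 1 w → W.tr X (r * W.cl X w) = 0) : r = 0 := by
  classical
  let B := Module.Basis.ofVectorSpace ℚ W.K
  obtain ⟨c, hc, rfl⟩ := exists_expand _ (by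
      exact ⟨0, SmVar.IsCyc.zero _ _, map_zero _⟩) (by
      rintro x ⟨z, hz, rfl⟩ y ⟨w, hw, rfl⟩
      exact ⟨z + w, SmVar.IsCyc.add hz hw, map_add _ _ _⟩) (by
      rintro x ⟨z, hz, rfl⟩ r
      exact ⟨r • z, SmVar.IsCyc.smul _ hz, by rw [W.cl_smul]⟩) B hr
  have hzero : ∀ i, c i = 0 := by
    intro i
    by_cases hi : i ∈ c.support
    · obtain ⟨z, hz, hzc⟩ := hc i
      rw [← hzc]
      apply h z hz
      intro w hw
      have h1 : ∀ j, ∃ r : ℚ, W.tr X (c j * W.cl X w) = (r : W.K) := by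
        intro j
        obtain ⟨z', hz', h2⟩ := hc j
        rw [← h2, ← W.cl_mul]
        refine ⟨_, W.tr_cl ?_⟩
        have h4 := ops.mul_mem hz' hw
        rwa [hq] at h4
      choose r hr using h1
      have h2 : ∑ j ∈ c.support, r j • B j = 0 := by
        rw [← h0 w hw, Finsupp.sum, sum_mul, map_sum]
        apply sum_congr rfl
        intro j _
        rw [smul_mul_assoc, map_smul, hr, Rat.smul_def, smul_eq_mul, mul_comm]
      have h3 := linearIndependent_iff'.1 B.linearIndependent c.support r h2 i hi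
      rw [hzc, hr, h3, Rat.cast_zero]
    · exact Finsupp.notMem_support_iff.1 hi
  rw [Finsupp.sum]
  exact sum_eq_zero fun i _ => by rw [hzero i, smul_zero]

variable {W} in
/-- Every class is, as a functional on classes of curves, a combination of classes of divisors. -/
lemma exists_divisor {X : 𝒱.Obj} {q : ℕ} (hq : q + 1 = X.dim)
    (h : ∀ z : X.Cycles, X.IsCyc q z →
      (∀ w, X.IsCyc 1 w → W.tr X (W.cl X z * W.cl X w) = 0) → W.cl X z = 0) (G : W.H X) :
    ∃ b ∈ Submodule.span W.K {y | ∃ z, X.IsCyc 1 z ∧ W.cl X z = y},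
      ∀ C, X.IsCyc q C → W.tr X (G * W.cl X C) = W.tr X (b * W.cl X C) := by
  let S : Submodule W.K (W.H X) := Submodule.span W.K {y | ∃ z, X.IsCyc 1 z ∧ W.cl X z = y}
  let R : Submodule W.K (W.H X) := Submodule.span W.K {y | ∃ z, X.IsCyc q z ∧ W.cl X z = y}
  let Φ : W.H X →ₗ[W.K] Module.Dual W.K R := LinearMap.mk₂ W.K (fun x r => W.tr X (x * r.1))
    (by intro x x' r; rw [add_mul, map_add]) (by intro c x r; rw [smul_mul_assoc, map_smul])
    (by intro x r r'; rw [Submodule.coe_add, mul_add, map_add])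
    (by intro c x r; rw [Submodule.coe_smul, mul_smul_comm, map_smul])
  have hΦ : ∀ x r, Φ x r = W.tr X (x * r.1) := fun _ _ => rfl
  have hmem : Φ G ∈ (S.map Φ).dualCoannihilator.dualAnnihilator := by
    rw [Submodule.mem_dualAnnihilator]
    intro r hr
    rw [Submodule.mem_dualCoannihilator] at hr
    have hr0 : r.1 = 0 := by
      apply homEqNum_span hq h r.2
      intro w hw
      have h1 := hr (Φ (W.cl X w)) ⟨_, Submodule.subset_span ⟨w, hw, rfl⟩, rfl⟩
      rw [hΦ] at h1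
      rw [← h1, W.even_comm (W.cl_mem hw)]
    rw [hΦ, hr0, mul_zero, map_zero]
  rw [Subspace.dualCoannihilator_dualAnnihilator_eq] at hmem
  obtain ⟨b, hb, hbG⟩ := hmem
  refine ⟨b, hb, fun C hC => ?_⟩
  have h1 := LinearMap.congr_fun hbG ⟨W.cl X C, Submodule.subset_span ⟨C, hC, rfl⟩⟩
  rw [hΦ, hΦ] at h1
  exact h1.symm

end A

end Pool.Agent.Helper7K9.CT
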