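import Pool.Agent.Helper7K9.CT.Crit
import Pool.Agent.Helper7K9.CT.Gen

/-!
# Orthogonal lifting in codimension two
-/

open CategoryTheory Finset

namespace Pool.Agent.Helper7K9.CT

open Pool.Agent.H914 Pool.Agent.H914.VarClass Pool.Agent.H914.VarClass.Obj
  Pool.Agent.H914.WeilCohomology Pool.Agent.Helper7K9.OL Pool.Agent.Helper7K9.KW

theorem codim_two (M : Model) (h : ∀ v, ∃ (n : ℕ) (f : Fin n → M.Ch → M.B v → ℚ),
    Decomposes M v f ∧ ∀ r, IsTwoPiece M v (f r)) : M.OrthogonalLifting := by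
  apply global
  intro v z hz
  obtain ⟨n, f, hf, hp⟩ := h v
  apply local_ M v hf z hz
  intro r
  obtain ⟨k, _, _, 𝒱, ops, W, d, D, L, G, hd, hS, hL, hH, hD, hG, hW⟩ := hp r
  obtain ⟨g, hg, hg'⟩ := hW z hz
  exact piece W D (by norm_num) (by omega) M v (f r) G hG z fun β hβ hα =>
    crit2 hd hS hL hH hD (clF_mem W D (hG.spec_cyc z)) hβ hα hg hg'

end Pool.Agent.Helper7K9.CT
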