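import Pool.Agent.Helper7K9.CT.Gen

/-!
# Orthogonal lifting from the weight-monodromy conjecture
-/

open CategoryTheory Finset

universe u v

namespace Pool.Agent.Helper7K9.CT

open Pool.Agent.H914 Pool.Agent.H914.VarClass Pool.Agent.H914.VarClass.Obj
  Pool.Agent.H914.WeilCohomology Pool.Agent.Helper7K9.OL Pool.Agent.Helper7K9.KW

section A

variable {k : Type} [Field k] {𝒱 : VarClass k} {ops : CycleOps 𝒱}
  {W : WeilCohomology.{0, 0} ops} {d : ℕ} {D : Strata 𝒱 d}

lemma InE1.eq_zero' {q : ℕ} {k : ℤ} {f : Tot W D} (h : InE1 W D q k f) {p : ℕ}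
    (hp : ¬ (p ≤ q ∧ k.natAbs ≤ p ∧ Even ((p : ℤ) + k))) : f p = 0 := by
  funext s
  exact (h p s).2.resolve_right hp

lemma gr_of_alg {p q : ℕ} {x : Coh W D p} (hx : x ∈ Alg W D p q) (s) :
    x s ∈ W.gr (D.Y p s) (2 * q) := by
  obtain ⟨y, hy, h1⟩ := hx s
  rw [← h1]
  exact W.cl_mem hy

/-- The pairing of the components of `g` and of `γ h` vanishes. -/
lemma descent {i : ℕ} (hi : 1 ≤ i) {g h : Tot W D} (hg : InE1 W D (2 * i - 1) 1 g)
    (hg0 : ∀ m, res W D (2 * m + 1) (g (2 * m + 1)) + gys W D (2 * m + 2) (g (2 * m + 3)) = 0)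
    (hh0 : ∀ m, res W D (2 * m + 2) (h (2 * m + 2)) + gys W D (2 * m + 3) (h (2 * m + 4)) = 0)
    (n : ℕ) : ∀ m, i ≤ m + n →
      pair W D (2 * m + 1) (g (2 * m + 1)) (gys W D (2 * m + 1) (h (2 * m + 2))) = 0 := by
  induction n with
  | zero =>
    intro m hm
    have h1 : g (2 * m + 1) = 0 := InE1.eq_zero' hg (by omega)
    rw [h1, pair_zero_left]
  | succ n ih =>
    intro m hm
    by_cases hmi : i ≤ m
    · have h1 : g (2 * m + 1) = 0 := InE1.eq_zero' hg (by omega)
      rw [h1, pair_zero_left]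
    push Not at hmi
    have hev : ∀ s, g (2 * m + 1) s ∈ W.gr _ (2 * (i - 1 - m)) := by
      intro s
      have h1 := (hg (2 * m + 1) s).1
      rwa [show 2 * i - 1 - (2 * m + 1) = 2 * (i - 1 - m) by omega] at h1
    have hev' : ∀ s, res W D (2 * m + 1) (g (2 * m + 1)) s ∈ W.gr _ (2 * (i - 1 - m)) := by
      intro s
      rw [res_apply]
      exact Submodule.sum_mem _ fun i _ => Submodule.smul_mem _ _ (W.map_mem _ (hev _))
    have hev3 : ∀ s, g (2 * m + 3) s ∈ W.gr _ (2 * (i - 1 - (m + 1))) := by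
      intro s
      have h1 := (hg (2 * m + 3) s).1
      rwa [show 2 * i - 1 - (2 * m + 3) = 2 * (i - 1 - (m + 1)) by omega] at h1
    have h2 : pair W D (2 * m + 3) (g (2 * m + 3)) (gys W D (2 * m + 3) (h (2 * m + 4))) = 0 :=
      ih (m + 1) (by omega)
    rw [pair_comm_even W D (e := fun _ => i - 1 - m) hev, adj,
      ← pair_comm_even W D (e := fun _ => i - 1 - m) hev',
      eq_neg_of_add_eq_zero_left (hg0 m), pair_neg_left, adj,
      eq_neg_of_add_eq_zero_left (hh0 m), pair_neg_right, h2, neg_zero, neg_zero]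

/-- The family `u` on the double intersections. -/
def at1' (u : Coh W D 1) : Tot W D
  | 0 => 0
  | 1 => u
  | _ + 2 => 0

theorem critW {i : ℕ} (hi : 1 ≤ i) (hid : i ≤ d) (hS : IsSemistable W D)
    (hN : WeightMonodromy W D (2 * (d - i) + 1)) (hD : HomEqNum W D i)
    {x β : Coh W D 0} (hβ : β ∈ Alg W D 0 (d - i))
    (h : ∀ α ∈ Alg W D 0 (i - 1), pair W D 1 (res W D 0 α) (res W D 0 β) = 0)
    {g : Tot W D} (hg : InE1 W D (2 * i - 1) 1 g) (hg' : dif W D 1 g = at0 W D x) :
    pair W D 0 x β = 0 := by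
  classical
  set u := res W D 0 β with hu
  have huA : u ∈ Alg W D 1 (d - i) := res_mem W D hβ
  have hgu : gys W D 0 u = 0 := by
    have hwA : gys W D 0 u ∈ Alg W D 0 (d - i + 1) := gys_mem W D (res_mem W D hβ)
    funext t
    by_cases ht : ∀ s r, D.face 0 r s ≠ t
    · exact gys_isolated W D ht _
    push Not at ht
    obtain ⟨s, r, rfl⟩ := ht
    obtain ⟨y, hy, hyw⟩ := hwA (D.face 0 r s)
    rw [show d - i + 1 = d + 1 - i by omega] at hy
    change gys W D 0 u (D.face 0 r s) = 0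
    rw [← hyw]
    apply hD s r y hy
    intro z hz
    change W.tr _ (W.cl _ y * W.cl _ z) = 0
    rw [hyw, ← pair_single_right, adj]
    have hα : (Pi.single (D.face 0 r s) (W.cl _ z) : Coh W D 0) ∈ Alg W D 0 (i - 1) := by
      intro t
      by_cases ht : t = D.face 0 r s
      · subst ht
        exact ⟨z, hz, by rw [Pi.single_eq_same]⟩
      · exact ⟨0, SmVar.IsCyc.zero _ _, by rw [Pi.single_eq_of_ne ht, map_zero]⟩
    rw [pair_comm_even W D (e := fun _ => d - i) (gr_of_alg (res_mem W D hβ)), h _ hα]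
  have hru : res W D 1 u = 0 := hS.res_res' 0 β
  obtain ⟨f, hf, hfu⟩ := hN (at1' u) (by
    intro p s
    match p with
    | 0 => exact ⟨Submodule.zero_mem _, Or.inl rfl⟩
    | 1 =>
      refine ⟨?_, Or.inr ⟨by omega, by norm_num, by norm_num⟩⟩
      exact gr_of_alg huA s
    | p + 2 => exact ⟨Submodule.zero_mem _, Or.inl rfl⟩) (by
    funext p
    match p with
    | 0 =>
      rw [dif_zero W D (by norm_num)]
      exact hgu
    | 1 =>
      rw [dif_succ W D 0 (by norm_num)]
      change res W D 0 0 + gys W D 1 0 = 0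
      rw [map_zero, map_zero, add_zero]
    | 2 =>
      rw [dif_succ W D 1 (by norm_num)]
      change res W D 1 u + gys W D 2 0 = 0
      rw [hru, map_zero, add_zero]
    | p + 3 =>
      rw [dif_succ W D (p + 2) (by norm_num)]
      change res W D (p + 2) 0 + gys W D (p + 3) 0 = 0
      rw [map_zero, map_zero, add_zero]) (by
    refine ⟨at0 W D β, ?_, ?_⟩
    · intro p s
      match p with
      | 0 =>
        refine ⟨?_, Or.inr ⟨by omega, by norm_num, by norm_num⟩⟩
        exact gr_of_alg hβ s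
      | p + 1 => exact ⟨Submodule.zero_mem _, Or.inl rfl⟩
    · funext p
      match p with
      | 0 => exact dif_out W D 0 (by norm_num) _
      | 1 =>
        rw [dif_succ W D 0 (by norm_num)]
        change res W D 0 β + gys W D 1 0 = res W D 0 β
        rw [map_zero, add_zero]
      | p + 2 =>
        rw [dif_succ W D (p + 1) (by norm_num)]
        change res W D (p + 1) 0 + gys W D (p + 2) 0 = 0
        rw [map_zero, map_zero, add_zero])
  have hf0 : f 0 = 0 := InE1.eq_zero' hf (by norm_num)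
  have hu2 : u = gys W D 1 (f 2) := by
    have h1 := congrFun hfu 1
    rw [dif_succ W D 0 (by norm_num), hf0, map_zero, zero_add] at h1
    exact h1.symm
  have hfm : ∀ m, res W D (2 * m + 2) (f (2 * m + 2)) + gys W D (2 * m + 3) (f (2 * m + 4)) = 0 := by
    intro m
    have h1 := congrFun hfu (2 * m + 3)
    rw [dif_succ W D (2 * m + 2) (by norm_num)] at h1
    exact h1
  have hgm : ∀ m, res W D (2 * m + 1) (g (2 * m + 1)) + gys W D (2 * m + 2) (g (2 * m + 3)) = 0 := by
    intro m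
    have h1 := congrFun hg' (2 * m + 2)
    rw [dif_succ W D (2 * m + 1) (by norm_num)] at h1
    exact h1
  have hx : x = gys W D 0 (g 1) := by
    have h1 := congrFun hg' 0
    rw [dif_zero W D (by norm_num)] at h1
    exact h1.symm
  have hdes := descent hi hg hgm hfm i 0 (by omega)
  rw [hx, adj, ← hu, hu2]
  exact hdes

end A

theorem pure_ (M : Model) (h : ∀ v, ∃ (n : ℕ) (f : Fin n → M.Ch → M.B v → ℚ),
    Decomposes M v f ∧ ∀ r, IsPurePiece M v (f r)) : M.OrthogonalLifting := by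
  apply global
  intro v z hz
  obtain ⟨n, f, hf, hp⟩ := h v
  apply local_ M v hf z hz
  intro r
  obtain ⟨k, _, _, 𝒱, ops, W, d, j, D, G, hj, hjd, hS, hN, hD, hG, hW⟩ := hp r
  obtain ⟨g, hg, hg'⟩ := hW z hz
  exact piece W D hj hjd M v (f r) G hG z fun β hβ hα =>
    critW hj hjd hS hN hD hβ hα hg hg'

end Pool.Agent.Helper7K9.CT
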